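import Pool.Agent.Q23.EG.Stm

set_option autoImplicit false

namespace Pool.Agent.Q162.EG

theorem y0 : Pool.Agent.Q23.EG.S_y0 := by
  intro k _ M E Q N₁ hQ0 e ξ hprim hQ hcop hN1 hξ
  have hQpos : 0 < Q := Nat.pos_of_ne_zero hQ0.out
  have hE : 0 < E := Nat.pos_of_ne_zero (fun h => hQ0.out (by rw [hQ, h, mul_zero]))
  have hz : IsPrimitiveRoot (e 1 ^ M) E := hprim.pow hQpos hQ
  have hξ0 : ξ ≠ 0 := by
    rintro rfl
    rw [zero_pow hE.ne'] at hξ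
    exact zero_ne_one hξ
  have hEne : NeZero E := ⟨hE.ne'⟩
  obtain ⟨b, -, hb⟩ := hz.eq_pow_of_pow_eq_one (ξ := ξ⁻¹) (by rw [inv_pow, hξ, inv_one])
  refine ⟨(Nat.chineseRemainder hcop 1 b : ℕ), Nat.chineseRemainder_lt_mul hcop 1 b hN1.ne' hE.ne', ?_, ?_⟩
  · have h1 := (Nat.chineseRemainder hcop 1 b).2.1
    have h2 := h1.gcd_eq
    rw [Nat.gcd_one_left] at h2
    exact h2
  · set y : ℕ := (Nat.chineseRemainder hcop 1 b : ℕ) with hy
    have h1 : y ≡ b [MOD E] := (Nat.chineseRemainder hcop 1 b).2.2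
    have h2 : ((M : ZMod Q) * 1 * (y : ZMod Q)) = (M * y) • (1 : ZMod Q) := by
      rw [nsmul_eq_mul, mul_one, mul_one, Nat.cast_mul]
    rw [h2, AddChar.map_nsmul_eq_pow, pow_mul]
    have h3 : (e 1 ^ M) ^ y = (e 1 ^ M) ^ b := by
      rw [← pow_mod_orderOf, ← pow_mod_orderOf (e 1 ^ M) b, ← hz.eq_orderOf]
      rw [h1]
    rw [h3, hb]
    exact mul_inv_cancel₀ hξ0

end Pool.Agent.Q162.EG
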